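import Mathlib
import Pool.Agent.H87.LL.Divisor
import Pool.Agent.H87.LL.Coord

/-!
# Two potentials on one set

The potential of `Pool.Agent.H87.LL` is used twice on the same finite set `R` of integers: once for
the map `r ↦ r` and the tests `q ^ f ∣ r`, and once for a map `r ↦ lam r` which behaves like the
logarithm, with the tests `v_q r = f`, read off from `lam r` modulo a large auxiliary prime. The two
gains at one level add up to the full entropy of the test.
-/

set_option autoImplicit false
set_option linter.unusedSectionVars false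

namespace Pool.Agent.H630.SP

open Finset Real
open Pool.Agent.H87.LL
open Pool.Agent.H87.FS (cls va)
open scoped Pointwise BigOperators

variable {ι : Type*}

theorem gf_add (θ : ℝ) (h0 : 0 ≤ θ) (h1 : θ ≤ 1) :
    Real.binEntropy θ ≤ gf θ + gf (1 - θ) := by
  rcases lt_or_ge θ (1 / 2) with h | h
  · have h2 : gf (1 - θ) = Real.binEntropy θ := by
      unfold gf
      rw [if_neg (by linarith), Real.binEntropy_one_sub]
    rw [h2]
    have := gf_nonneg θ h0 h1
    linarith
  · have h2 : gf θ = Real.binEntropy θ := by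
      unfold gf
      rw [if_neg (by linarith)]
    rw [h2]
    have := gf_nonneg (1 - θ) (by linarith) (by linarith)
    linarith

theorem rep_shift (R : Finset ι) (φ : ι → ℤ) (c : ℤ) (P : Finset ℤ) (z : ℤ) :
    rep R (fun r => φ r - c) P z = rep R φ P (z + c) := by
  unfold rep
  congr 1
  ext r
  simp only [Finset.mem_filter]
  have : z - (φ r - c) = z + c - φ r := by ring
  rw [this]

theorem psi_shift (e : ℝ) (R : Finset ι) (φ : ι → ℤ) (c : ℤ) (P Q : Finset ℤ) :
    psi e R (fun r => φ r - c) P Q = psi e R φ P Q := by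
  have h : Lg R (fun r => φ r - c) P = Lg R φ P := by
    unfold Lg
    refine Finset.sum_congr rfl fun r _ => Finset.sum_congr rfl fun p _ => ?_
    rw [rep_shift]
    have : φ r - c + p + c = φ r + p := by ring
    rw [this]
  unfold psi E1
  rw [h]

/-- All tests of one coordinate of the logarithm. -/
theorem mulBlock (e : ℝ) (he : 0 < e) (he1 : e ≤ 1) (p : ℕ) (hp : p.Prime)
    (hpl : 2 * Real.exp (10 ^ 8 * (2 / e + 1)) ≤ p) (R : Finset ι) (φ : ι → ℤ) (w : ι → ℕ)
    (hw : ∀ r ∈ R, w r < p) (hφ : ∀ r ∈ R, (p : ℤ) ∣ φ r - w r) (F : ℕ) :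
    ∑ f ∈ Finset.range F, ((R.filter fun r => f ≤ w r).card : ℝ) *
        gf (((R.filter fun r => w r = f).card : ℝ) / (R.filter fun r => f ≤ w r).card) +
      ∑ f ∈ Finset.range F, Sf e (R.filter fun r => w r = f) φ +
      Sf e (R.filter fun r => F ≤ w r) φ ≤ Sf e R φ := by
  classical
  induction F with
  | zero => simp
  | succ F ih =>
    rw [Finset.sum_range_succ, Finset.sum_range_succ]
    set R' := R.filter (fun r => F ≤ w r) with hR'
    have hiff : ∀ r ∈ R', (((φ r - F : ℤ) : ZMod (p ^ 1)) = 0 ↔ w r = F) := by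
      intro r hr
      obtain ⟨h1, h2⟩ := Finset.mem_filter.1 hr
      rw [ZMod.intCast_zmod_eq_zero_iff_dvd, pow_one]
      constructor
      · intro h3
        have h4 : (p : ℤ) ∣ (w r : ℤ) - F := by
          have h5 := dvd_sub h3 (hφ r h1)
          have h6 : φ r - (F : ℤ) - (φ r - w r) = (w r : ℤ) - F := by ring
          rwa [h6] at h5
        have h7 : (p : ℤ) ∣ ((w r - F : ℕ) : ℤ) := by
          rwa [Nat.cast_sub h2]
        have h8 := Nat.eq_zero_of_dvd_of_lt (Int.natCast_dvd_natCast.1 h7)
          (lt_of_le_of_lt (Nat.sub_le _ _) (hw r h1))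
        omega
      · intro h3
        have := hφ r h1
        rwa [h3] at this
    have e1 : R'.filter (fun r => (((φ r - F : ℤ)) : ZMod (p ^ 1)) = 0) =
        R.filter fun r => w r = F := by
      ext r
      simp only [Finset.mem_filter]
      constructor
      · rintro ⟨a, b⟩
        exact ⟨(Finset.mem_filter.1 a).1, (hiff r a).1 b⟩
      · rintro ⟨a, b⟩
        have h1 : r ∈ R' := Finset.mem_filter.2 ⟨a, b.ge⟩
        exact ⟨h1, (hiff r h1).2 b⟩
    have e2 : R'.filter (fun r => ¬ (((φ r - F : ℤ)) : ZMod (p ^ 1)) = 0) =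
        R.filter fun r => F + 1 ≤ w r := by
      ext r
      simp only [Finset.mem_filter]
      constructor
      · rintro ⟨a, b⟩
        have h1 := Finset.mem_filter.1 a
        have h2 : ¬ w r = F := fun h => b ((hiff r a).2 h)
        exact ⟨h1.1, by omega⟩
      · rintro ⟨a, b⟩
        have h1 : r ∈ R' := Finset.mem_filter.2 ⟨a, by omega⟩
        exact ⟨h1, fun h => by have := (hiff r h1).1 h; omega⟩
    have key : Sf e (R.filter fun r => w r = F) φ +
        Sf e (R.filter fun r => F + 1 ≤ w r) φ + (R'.card : ℝ) *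
        gf (((R.filter fun r => w r = F).card : ℝ) / R'.card) ≤ Sf e R' φ := by
      refine le_Sf e R' φ _ fun P Q hP hQ => ?_
      have h := step e he he1 p 1 hp one_ne_zero 0 (Or.inl ⟨rfl, hpl⟩) R'
        (fun r => φ r - (F : ℤ)) P Q hP hQ
        (Sf e (R.filter fun r => w r = F) φ)
        (Sf e (R.filter fun r => F + 1 ≤ w r) φ)
        (fun P' Q' hP' hQ' => by
          rw [e1, psi_shift]
          exact Sf_le e he _ φ P' Q' hP' hQ')
        (fun P' Q' hP' hQ' => by
          rw [e2, psi_shift]
          exact Sf_le e he _ φ P' Q' hP' hQ')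
      rw [e1, psi_shift] at h
      linarith
    linarith

/-- The main induction. -/
theorem mainInd2 (e e' : ℝ) (he : 0 < e) (he1 : e ≤ 1) (he' : 0 < e') (he1' : e' ≤ 1)
    (φ : ℤ → ℤ) (l : List ℕ) :
    (∀ q ∈ l, q.Prime) → ∀ (R : Finset ℤ), (∀ r ∈ R, r ≠ 0) →
      (∀ q ∈ l, ∃ p : ℕ, p.Prime ∧ 2 * Real.exp (10 ^ 8 * (2 / e' + 1)) ≤ p ∧
        ∀ r ∈ R, va q r < p ∧ (p : ℤ) ∣ φ r - va q r) →
      (∀ r ∈ R, ∀ r' ∈ R, (∀ q ∈ l, va q r = va q r') → r.natAbs = r'.natAbs) →
      (R.card : ℝ) * log R.card ≤ Sf e R (fun r => r) + Sf e' R φ +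
        ((l.map (bq e)).sum + log 2) * R.card := by
  induction l with
  | nil =>
    intro _ R hR0 _ hdet
    have hS1 := Sf_nonneg e he R (fun r => r)
    have hS2 := Sf_nonneg e' he' R φ
    rcases R.eq_empty_or_nonempty with rfl | hR
    · simp only [Finset.card_empty, Nat.cast_zero, zero_mul, mul_zero, add_zero]
      linarith
    · obtain ⟨r₀, hr₀⟩ := hR
      have hRc : (0 : ℝ) < R.card := by exact_mod_cast Finset.card_pos.2 ⟨r₀, hr₀⟩
      have h1 : R ⊆ ({r₀, -r₀} : Finset ℤ) := by
        intro r hr
        have h2 := hdet r hr r₀ hr₀ (by simp)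
        rcases Int.natAbs_eq_natAbs_iff.1 h2 with h3 | h3
        · simp [h3]
        · simp [h3]
      have h2 : (R.card : ℝ) ≤ 2 := by
        exact_mod_cast (Finset.card_le_card h1).trans Finset.card_le_two
      have h3 : log R.card ≤ log 2 := Real.log_le_log hRc h2
      simp only [List.map_nil, List.sum_nil, zero_add]
      nlinarith
  | cons q l ih =>
    intro hl R hR0 hmul hdet
    have hq : q.Prime := hl q (List.mem_cons_self ..)
    obtain ⟨F, hVF⟩ : ∃ F : ℕ, ∀ r ∈ R, va q r < F := by
      refine ⟨(R.sup fun r => va q r) + 1, ?_⟩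
      intro r hr
      have h1 : va q r ≤ R.sup fun r => va q r := Finset.le_sup (f := fun r => va q r) hr
      omega
    obtain ⟨p, hp, hpl, hpR⟩ := hmul q (List.mem_cons_self ..)
    obtain ⟨n, hn⟩ : ∃ n : ℕ → ℝ, ∀ f, n f = ((R.filter fun r => f ≤ va q r).card : ℝ) :=
      ⟨_, fun _ => rfl⟩
    obtain ⟨c, hc⟩ : ∃ c : ℕ → ℝ, ∀ f, c f = ((R.filter fun r => va q r = f).card : ℝ) :=
      ⟨_, fun _ => rfl⟩
    have hcn : ∀ f, c f = n f - n (f + 1) := by
      intro f
      rw [hc, hn, hn]
      have h1 : (R.filter fun r => f ≤ va q r) =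
          (R.filter fun r => va q r = f) ∪ (R.filter fun r => f + 1 ≤ va q r) := by
        ext r
        simp only [Finset.mem_filter, Finset.mem_union]
        constructor
        · rintro ⟨a, b⟩
          rcases Nat.lt_or_ge f (va q r) with h | h
          · exact Or.inr ⟨a, h⟩
          · exact Or.inl ⟨a, by omega⟩
        · rintro (⟨a, b⟩ | ⟨a, b⟩)
          · exact ⟨a, b.ge⟩
          · exact ⟨a, by omega⟩
      rw [h1, Finset.card_union_of_disjoint]
      · push_cast
        ring
      · rw [Finset.disjoint_left]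
        intro r h2 h3
        have h4 := (Finset.mem_filter.1 h2).2
        have h5 := (Finset.mem_filter.1 h3).2
        omega
    have hn0 : ∀ f, 0 ≤ n f := fun f => by rw [hn]; positivity
    have hc0 : ∀ f, 0 ≤ c f := fun f => by rw [hc]; positivity
    have hanti : Antitone n := antitone_nat_of_succ_le fun f => by
      have := hc0 f
      rw [hcn] at this
      linarith
    have hnF : n F = 0 := by
      rw [hn, Finset.filter_eq_empty_iff.2]
      · simp
      · intro r hr h
        have := hVF r hr
        omega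
    have hn00 : n 0 = R.card := by
      rw [hn]
      simp
    have htele := tele_ent n hanti hn0 0 F (Nat.zero_le F)
    rw [hnF, hn00, zero_mul, sub_zero, ← Finset.range_eq_Ico] at htele
    -- the gain
    have hgain : ∑ f ∈ Finset.range F, n f * Real.binEntropy (n (f + 1) / n f) ≤
        ∑ f ∈ Finset.range F, n f * gf (n (f + 1) / n f) +
        ∑ f ∈ Finset.range F, n f * gf (c f / n f) := by
      rw [← Finset.sum_add_distrib]
      refine Finset.sum_le_sum fun f _ => ?_
      rcases (hn0 f).eq_or_lt with h | h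
      · rw [← h]
        simp
      · have h1 : c f / n f = 1 - n (f + 1) / n f := by
          rw [hcn]
          field_simp
        have h2 : n (f + 1) / n f ≤ 1 := by
          rw [div_le_one h]
          exact hanti (Nat.le_succ f)
        have h3 := gf_add (n (f + 1) / n f) (div_nonneg (hn0 _) h.le) h2
        rw [h1, ← mul_add]
        exact mul_le_mul_of_nonneg_left h3 h.le
    -- the two blocks
    have hb1 := block e he he1 q hq (bq e q) (bq_spec e q) R (fun r => r) hR0 F
    have hb2 := mulBlock e' he' he1' p hp hpl R φ (fun r => va q r)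
      (fun r hr => (hpR r hr).1) (fun r hr => (hpR r hr).2) F
    simp only [← hn, ← hc] at hb1 hb2
    rw [hnF, mul_zero, add_zero] at hb1
    have hz1 := Sf_nonneg e he (R.filter fun r => F ≤ va q r) (fun r => r)
    have hz2 := Sf_nonneg e' he' (R.filter fun r => F ≤ va q r) φ
    -- the induction hypothesis
    have hih : ∀ f ∈ Finset.range F, c f * log (c f) ≤
        Sf e (R.filter fun r => va q r = f) (fun r => r) +
        Sf e' (R.filter fun r => va q r = f) φ + ((l.map (bq e)).sum + log 2) * c f := by
      intro f _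
      rw [hc]
      refine ih (fun q' hq' => hl q' (List.mem_cons_of_mem _ hq')) _
        (fun r hr => hR0 r (Finset.mem_filter.1 hr).1) ?_ ?_
      · intro q' hq'
        obtain ⟨p', h1, h2, h3⟩ := hmul q' (List.mem_cons_of_mem _ hq')
        exact ⟨p', h1, h2, fun r hr => h3 r (Finset.mem_filter.1 hr).1⟩
      · intro r hr r' hr' hrr
        obtain ⟨h1, h2⟩ := Finset.mem_filter.1 hr
        obtain ⟨h3, h4⟩ := Finset.mem_filter.1 hr'
        refine hdet r h1 r' h3 ?_
        intro q' hq'
        rcases List.mem_cons.1 hq' with h5 | h5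
        · rw [h5, h2, h4]
        · exact hrr q' h5
    have hihs := Finset.sum_le_sum hih
    rw [Finset.sum_add_distrib, Finset.sum_add_distrib, ← Finset.mul_sum] at hihs
    have hcsum : ∑ f ∈ Finset.range F, c f = R.card := by
      have h1 : ∑ f ∈ Finset.range F, c f = n 0 - n F := by
        rw [← Finset.sum_range_sub']
        exact Finset.sum_congr rfl fun f _ => hcn f
      rw [h1, hnF, hn00, sub_zero]
    rw [hcsum] at hihs
    have hcl : ∑ f ∈ Finset.range F, (n f - n (f + 1)) * log (n f - n (f + 1)) =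
        ∑ f ∈ Finset.range F, c f * log (c f) :=
      Finset.sum_congr rfl fun f _ => by rw [hcn]
    rw [hcl] at htele
    simp only [List.map_cons, List.sum_cons]
    have : (bq e q + (l.map (bq e)).sum + log 2) * (R.card : ℝ) =
        bq e q * R.card + ((l.map (bq e)).sum + log 2) * R.card := by ring
    rw [this]
    linarith

end Pool.Agent.H630.SP
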