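import Mathlib
import Pool.Agent.H630.SP.Core

/-!
# The logarithm modulo large primes
-/

set_option autoImplicit false
set_option linter.unusedSectionVars false

namespace Pool.Agent.H630.SP

open Finset Real
open Pool.Agent.H87.LL
open Pool.Agent.H87.FS (cls va)
open scoped Pointwise BigOperators

theorem va_mul (q : ℕ) (a b : ℤ) (ha : a ≠ 0) (hb : b ≠ 0) : va q (a * b) = va q a + va q b := by
  unfold va
  rw [Int.natAbs_mul, Nat.factorization_mul (Int.natAbs_ne_zero.2 ha) (Int.natAbs_ne_zero.2 hb)]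
  rfl

/-- A function on the nonzero integers with values in the integers, additive on products, which
agrees with the valuation at each prime of a finite set modulo a large auxiliary prime. -/
theorem exists_lam (S : Finset ℕ) (B : ℕ) : ∃ φ : ℤ → ℤ,
    (∀ a b : ℤ, a ≠ 0 → b ≠ 0 → φ (a * b) = φ a + φ b) ∧
    ∀ q ∈ S, ∃ p : ℕ, p.Prime ∧ B ≤ p ∧ ∀ a : ℤ, (p : ℤ) ∣ φ a - va q a := by
  classical
  obtain ⟨P, hPinj, hPp, hPB⟩ : ∃ P : ℕ → ℕ, Function.Injective P ∧ (∀ q, (P q).Prime) ∧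
      ∀ q, B ≤ P q := by
    refine ⟨fun q => Nat.nth Nat.Prime (B + q), ?_, ?_, ?_⟩
    · intro x y hxy
      have := Nat.nth_injective Nat.infinite_setOfPred_prime hxy
      omega
    · intro q
      exact Nat.prime_nth_prime _
    · intro q
      show B ≤ Nat.nth Nat.Prime (B + q)
      have := Nat.add_two_le_nth_prime (B + q)
      omega
  have hN : ∀ q : ℕ, ∃ N : ℤ, (P q : ℤ) ∣ N - 1 ∧ ∀ q' ∈ S, q' ≠ q → (P q' : ℤ) ∣ N := by
    intro q
    have hcop : IsCoprime (∏ q' ∈ S.erase q, (P q' : ℤ)) (P q : ℤ) := by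
      refine IsCoprime.prod_left fun q' hq' => ?_
      rw [Nat.isCoprime_iff_coprime]
      exact (Nat.coprime_primes (hPp q') (hPp q)).2 fun h =>
        (Finset.mem_erase.1 hq').1 (hPinj h)
    obtain ⟨a, b, hab⟩ := hcop
    refine ⟨a * ∏ q' ∈ S.erase q, (P q' : ℤ), ⟨-b, ?_⟩, ?_⟩
    · linear_combination hab
    · intro q' hq' hne
      exact Dvd.dvd.mul_left (Finset.dvd_prod_of_mem (fun q' => (P q' : ℤ))
        (Finset.mem_erase.2 ⟨hne, hq'⟩)) _
  choose N hN1 hN2 using hN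
  refine ⟨fun a => ∑ q ∈ S, (va q a : ℤ) * N q, ?_, ?_⟩
  · intro a b ha hb
    rw [← Finset.sum_add_distrib]
    refine Finset.sum_congr rfl fun q _ => ?_
    rw [va_mul q a b ha hb]
    push_cast
    ring
  · intro q hq
    refine ⟨P q, hPp q, hPB q, fun a => ?_⟩
    have h1 : ∑ q' ∈ S, (va q' a : ℤ) * N q' - va q a =
        (va q a : ℤ) * (N q - 1) + ∑ q' ∈ S.erase q, (va q' a : ℤ) * N q' := by
      rw [← Finset.add_sum_erase S _ hq]
      ring
    simp only []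
    rw [h1]
    refine dvd_add (Dvd.dvd.mul_left (hN1 q) _) (Finset.dvd_sum fun q' hq' => ?_)
    exact Dvd.dvd.mul_left (hN2 q' q hq (Ne.symm (Finset.mem_erase.1 hq').1)) _

/-- The set-up for finitely many nonzero integers. -/
theorem exists_setup (Z : Finset ℤ) (hZ : ∀ z ∈ Z, z ≠ 0) (e' : ℝ) : ∃ (φ : ℤ → ℤ) (l : List ℕ),
    (∀ a b : ℤ, a ≠ 0 → b ≠ 0 → φ (a * b) = φ a + φ b) ∧ l.Nodup ∧ (∀ q ∈ l, q.Prime) ∧
    (∀ q ∈ l, ∃ p : ℕ, p.Prime ∧ 2 * Real.exp (10 ^ 8 * (2 / e' + 1)) ≤ p ∧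
        ∀ r ∈ Z, va q r < p ∧ (p : ℤ) ∣ φ r - va q r) ∧
    (∀ r ∈ Z, ∀ r' ∈ Z, (∀ q ∈ l, va q r = va q r') → r.natAbs = r'.natAbs) ∧
    (∀ r ∈ Z, ∀ r' ∈ Z, φ r = φ r' → r.natAbs = r'.natAbs) := by
  classical
  have hx : ∏ z ∈ Z, z ≠ 0 := Finset.prod_ne_zero_iff.2 hZ
  set x : ℤ := ∏ z ∈ Z, z with hxdef
  set S : Finset ℕ := x.natAbs.primeFactors with hS
  obtain ⟨B, hB1, hB2⟩ : ∃ B : ℕ, 2 * Real.exp (10 ^ 8 * (2 / e' + 1)) ≤ B ∧
      ∀ q ∈ S, ∀ r ∈ Z, va q r < B := by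
    refine ⟨⌈2 * Real.exp (10 ^ 8 * (2 / e' + 1))⌉₊ +
      ((S.sup fun q => Z.sup fun r => va q r) + 1), ?_, ?_⟩
    · push_cast
      have h1 := Nat.le_ceil (2 * Real.exp (10 ^ 8 * (2 / e' + 1)))
      have h2 : (0 : ℝ) ≤ ((S.sup fun q => Z.sup fun r => va q r : ℕ) : ℝ) := Nat.cast_nonneg _
      linarith
    · intro q hq r hr
      have h1 : va q r ≤ Z.sup fun r => va q r := Finset.le_sup (f := fun r => va q r) hr
      have h2 : (Z.sup fun r => va q r) ≤ S.sup fun q => Z.sup fun r => va q r :=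
        Finset.le_sup (f := fun q => Z.sup fun r => va q r) hq
      omega
  obtain ⟨φ, hφ1, hφ2⟩ := exists_lam S B
  have hdet : ∀ r ∈ Z, ∀ r' ∈ Z, (∀ q ∈ S, va q r = va q r') → r.natAbs = r'.natAbs :=
    fun r hr r' hr' h => natAbs_eq_of_va r r' x hx (Finset.dvd_prod_of_mem (fun z => z) hr)
      (Finset.dvd_prod_of_mem (fun z => z) hr') h
  refine ⟨φ, S.toList, hφ1, Finset.nodup_toList S, ?_, ?_, ?_, ?_⟩
  · intro q hq
    exact Nat.prime_of_mem_primeFactors (Finset.mem_toList.1 hq)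
  · intro q hq
    obtain ⟨p, hp, hpB, hpd⟩ := hφ2 q (Finset.mem_toList.1 hq)
    refine ⟨p, hp, hB1.trans (by exact_mod_cast hpB), fun r hr => ⟨?_, hpd r⟩⟩
    exact lt_of_lt_of_le (hB2 q (Finset.mem_toList.1 hq) r hr) hpB
  · intro r hr r' hr' h
    exact hdet r hr r' hr' fun q hq => h q (Finset.mem_toList.2 hq)
  · intro r hr r' hr' h
    refine hdet r hr r' hr' fun q hq => ?_
    obtain ⟨p, hp, hpB, hpd⟩ := hφ2 q hq
    have h1 := hpd r
    have h2 := hpd r'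
    rw [h] at h1
    have h3 : (p : ℤ) ∣ (va q r : ℤ) - va q r' := by
      have h4 := dvd_sub h2 h1
      have h5 : φ r' - (va q r' : ℤ) - (φ r' - va q r) = (va q r : ℤ) - va q r' := by ring
      rwa [h5] at h4
    have h6 : (va q r : ℤ) - va q r' = 0 := by
      refine Int.eq_zero_of_abs_lt_dvd h3 ?_
      have h7 := lt_of_lt_of_le (hB2 q hq r hr) hpB
      have h8 := lt_of_lt_of_le (hB2 q hq r' hr') hpB
      rw [abs_lt]
      constructor <;> omega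
    omega

/-- Both potentials of a finite set of nonzero integers. -/
theorem entropy_le (e e' : ℝ) (he : 0 < e) (he1 : e ≤ 1) (he' : 0 < e') (he1' : e' ≤ 1)
    (Z : Finset ℤ) (hZ : ∀ z ∈ Z, z ≠ 0) : ∃ φ : ℤ → ℤ,
    (∀ a b : ℤ, a ≠ 0 → b ≠ 0 → φ (a * b) = φ a + φ b) ∧
    (∀ r ∈ Z, ∀ r' ∈ Z, φ r = φ r' → r.natAbs = r'.natAbs) ∧
    ∀ R : Finset ℤ, R ⊆ Z → (R.card : ℝ) * log R.card ≤ Sf e R (fun r => r) + Sf e' R φ +
        ((2 * Real.exp (10 ^ 8 * (2 / e + 1)) + 1) * log (200 / e) + log 2) * R.card := by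
  classical
  obtain ⟨φ, l, h1, h2, h3, h4, h5, h6⟩ := exists_setup Z hZ e'
  refine ⟨φ, h1, h6, fun R hR => ?_⟩
  have h := mainInd2 e e' he he1 he' he1' φ l h3 R (fun r hr => hZ r (hR hr))
    (fun q hq => by
      obtain ⟨p, a, b, c⟩ := h4 q hq
      exact ⟨p, a, b, fun r hr => c r (hR hr)⟩)
    (fun r hr r' hr' hh => h5 r (hR hr) r' (hR hr') hh)
  have h7 : (l.map (bq e)).sum = ∑ q ∈ l.toFinset, bq e q := by
    rw [List.sum_toFinset _ h2]
  rw [h7] at h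
  have h8 := mul_le_mul_of_nonneg_right (sum_bq e he he1 l.toFinset)
    (Nat.cast_nonneg (α := ℝ) R.card)
  nlinarith

end Pool.Agent.H630.SP
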