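import Mathlib
import Pool.Agent.H630.SP.Embed

/-!
# The sum-product inequality
-/

set_option autoImplicit false
set_option linter.unusedSectionVars false

namespace Pool.Agent.H630.SP

open Finset Real
open Pool.Agent.H87.LL
open Pool.Agent.H87.FS (cls va)
open scoped Pointwise BigOperators

variable {ι : Type*}

/-- The cost of an additive structure. -/
noncomputable def cost (e : ℝ) (L : ℝ) (P Q : Finset ℤ) : ℝ :=
  16 * (L - log (P.card : ℝ)) + (2000 * D2 P Q + e * log (P.card : ℝ))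

theorem Sf_le_cost (e : ℝ) (he : 0 < e) (R : Finset ι) (φ : ι → ℤ) (P Q S : Finset ℤ)
    (hP : P.Nonempty) (hQ : Q.Nonempty) (hS : ∀ r ∈ R, ∀ p ∈ P, φ r + p ∈ S) :
    Sf e R φ ≤ (R.card : ℝ) * cost e (log S.card) P Q := by
  have h1 := Sf_le e he R φ P Q hP hQ
  have h2 := E1_le R φ P S hP hS
  unfold psi at h1
  unfold cost
  linarith

/-- The constant. -/
noncomputable def W0 (e : ℝ) : ℝ := (2 * Real.exp (10 ^ 8 * (2 / e + 1)) + 1) * log (200 / e)

theorem W0_bound (e : ℝ) (he : 0 < e) (he1 : e ≤ 1) : W0 e + 3000 ≤ Real.exp (10 ^ 9 / e) := by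
  unfold W0
  have h1 : log (200 / e) ≤ 200 / e := by
    have := Real.log_le_sub_one_of_pos (show 0 < 200 / e by positivity)
    linarith
  have h1e : 1 ≤ 1 / e := by
    rw [le_div_iff₀ he]
    linarith
  have hlog : 0 ≤ log (200 / e) := by
    refine Real.log_nonneg ?_
    rw [le_div_iff₀ he]
    linarith
  have h2 : Real.exp (10 ^ 8 * (2 / e + 1)) ≤ Real.exp (3 * 10 ^ 8 / e) := by
    apply Real.exp_le_exp.2
    have : 10 ^ 8 * (2 / e + 1) = 2 * 10 ^ 8 * (1 / e) + 10 ^ 8 := by ring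
    rw [this]
    have : 3 * 10 ^ 8 / e = 3 * 10 ^ 8 * (1 / e) := by ring
    rw [this]
    nlinarith
  have h3 : 1 ≤ Real.exp (3 * 10 ^ 8 / e) := Real.one_le_exp (by positivity)
  have h4 : (2 * Real.exp (10 ^ 8 * (2 / e + 1)) + 1) * log (200 / e) ≤
      3 * Real.exp (3 * 10 ^ 8 / e) * (200 / e) := by
    refine mul_le_mul (by linarith) h1 hlog (by positivity)
  have h5 : 200 / e ≤ Real.exp (200 / e) := by
    have := Real.add_one_le_exp (200 / e)
    linarith
  have h6 : 3 * Real.exp (3 * 10 ^ 8 / e) * (200 / e) ≤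
      3 * (Real.exp (3 * 10 ^ 8 / e) * Real.exp (200 / e)) := by
    rw [mul_assoc]
    refine mul_le_mul_of_nonneg_left ?_ (by norm_num)
    exact mul_le_mul_of_nonneg_left h5 (by positivity)
  rw [← Real.exp_add] at h6
  have h7 : 3 * 10 ^ 8 / e + 200 / e ≤ 4 * 10 ^ 8 / e := by
    rw [← add_div]
    gcongr
    norm_num
  have h8 := Real.exp_le_exp.2 h7
  have h9 : 3003 ≤ Real.exp (10 ^ 8 / e) := by
    have h10 := Real.add_one_le_exp (10 ^ 8 / e)
    have h11 : (10 : ℝ) ^ 8 ≤ 10 ^ 8 / e := by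
      rw [le_div_iff₀ he]
      linarith
    linarith
  have h10 : Real.exp (4 * 10 ^ 8 / e) * Real.exp (10 ^ 8 / e) ≤ Real.exp (10 ^ 9 / e) := by
    rw [← Real.exp_add, ← add_div]
    apply Real.exp_le_exp.2
    gcongr
    norm_num
  have h11 : 1 ≤ Real.exp (4 * 10 ^ 8 / e) := Real.one_le_exp (by positivity)
  nlinarith

/-- The sum-product inequality, logarithmic form. -/
theorem log_ineq (e : ℝ) (he : 0 < e) (he1 : e ≤ 1) (A P Q X Y : Finset ℤ) (hA : A.Nonempty)
    (hP : P.Nonempty) (hQ : Q.Nonempty) (hX : X.Nonempty) (hY : Y.Nonempty)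
    (hA0 : (0 : ℤ) ∉ A) (hX0 : (0 : ℤ) ∉ X) (hY0 : (0 : ℤ) ∉ Y) :
    log (A.card : ℝ) ≤ W0 e + 3000 + e * log (P.card : ℝ) +
      16 * (log ((A + P).card : ℝ) - log (P.card : ℝ)) +
      2000 * (log ((P + Q).card : ℝ) - log (P.card : ℝ) / 2 - log (Q.card : ℝ) / 2) +
      16 * (log ((A * X).card : ℝ) - log (X.card : ℝ)) +
      2000 * (log ((X * Y).card : ℝ) - log (X.card : ℝ) / 2 - log (Y.card : ℝ) / 2) := by
  classical
  have hXc : (0 : ℝ) < X.card := by exact_mod_cast hX.card_pos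
  have hYc : (0 : ℝ) < Y.card := by exact_mod_cast hY.card_pos
  have hAc : (0 : ℝ) < A.card := by exact_mod_cast hA.card_pos
  have hlX : 0 ≤ log (X.card : ℝ) := Real.log_natCast_nonneg _
  set e' : ℝ := 1 / (1 + log (X.card : ℝ)) with he'
  have he'0 : 0 < e' := by positivity
  have he'1 : e' ≤ 1 := by
    rw [he', div_le_one (by linarith)]
    linarith
  have he'X : e' * log (X.card : ℝ) ≤ 1 := by
    rw [he', one_div, inv_mul_le_iff₀ (by linarith)]
    linarith
  obtain ⟨φ, hmul, hinj, hent⟩ := entropy_le e e' he he1 he'0 he'1 (A ∪ X ∪ Y) (by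
    intro z hz h0
    rw [h0] at hz
    simp only [Finset.mem_union] at hz
    tauto)
  have h1 := hent A (by
    intro z hz
    simp [hz])
  -- the additive side
  have h2 := Sf_le_cost e he A (fun r => r) P Q (A + P) hP hQ
    (fun r hr p hp => Finset.add_mem_add hr hp)
  -- the multiplicative side
  have himg : ∀ U V : Finset ℤ, (0 : ℤ) ∉ U → (0 : ℤ) ∉ V →
      U.image φ + V.image φ ⊆ (U * V).image φ := by
    intro U V hU hV z hz
    obtain ⟨x, hx, y, hy, rfl⟩ := Finset.mem_add.1 hz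
    obtain ⟨u, hu, rfl⟩ := Finset.mem_image.1 hx
    obtain ⟨v, hv, rfl⟩ := Finset.mem_image.1 hy
    exact Finset.mem_image.2 ⟨u * v, Finset.mul_mem_mul hu hv,
      hmul u v (fun h => hU (h ▸ hu)) (fun h => hV (h ▸ hv))⟩
  have hfib : ∀ U : Finset ℤ, U ⊆ A ∪ X ∪ Y → (U.card : ℝ) ≤ 2 * (U.image φ).card := by
    intro U hU
    have h3 : U.card ≤ 2 * (U.image φ).card := by
      refine Finset.card_le_mul_card_image U 2 ?_
      intro b hb
      obtain ⟨u, hu, rfl⟩ := Finset.mem_image.1 hb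
      have h4 : (U.filter fun x => φ x = φ u) ⊆ ({u, -u} : Finset ℤ) := by
        intro x hx
        obtain ⟨h5, h6⟩ := Finset.mem_filter.1 hx
        have h7 := hinj x (hU h5) u (hU hu) h6
        rcases Int.natAbs_eq_natAbs_iff.1 h7 with h8 | h8
        · simp [h8]
        · simp [h8]
      exact (Finset.card_le_card h4).trans Finset.card_le_two
    exact_mod_cast h3
  have h3 := Sf_le_cost e' he'0 A φ (X.image φ) (Y.image φ) ((A * X).image φ) (hX.image φ)
    (hY.image φ) (fun r hr p hp => himg A X hA0 hX0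
      (Finset.add_mem_add (Finset.mem_image_of_mem φ hr) hp))
  have hlog2 : 0 < log 2 := Real.log_pos (by norm_num)
  have hlog2' := Real.log_two_lt_d9
  have hX2 := hfib X (by intro z hz; simp [hz])
  have hY2 := hfib Y (by intro z hz; simp [hz])
  have hXi : (0 : ℝ) < (X.image φ).card := by exact_mod_cast (hX.image φ).card_pos
  have hYi : (0 : ℝ) < (Y.image φ).card := by exact_mod_cast (hY.image φ).card_pos
  have a1 : log (X.card : ℝ) ≤ log 2 + log ((X.image φ).card : ℝ) := by
    rw [← Real.log_mul (by norm_num) hXi.ne']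
    exact Real.log_le_log hXc hX2
  have a2 : log (Y.card : ℝ) ≤ log 2 + log ((Y.image φ).card : ℝ) := by
    rw [← Real.log_mul (by norm_num) hYi.ne']
    exact Real.log_le_log hYc hY2
  have a3 : log ((X.image φ).card : ℝ) ≤ log (X.card : ℝ) :=
    Real.log_le_log hXi (by exact_mod_cast Finset.card_image_le)
  have a4 : log (((A * X).image φ).card : ℝ) ≤ log ((A * X).card : ℝ) :=
    Real.log_le_log (by exact_mod_cast ((hA.mul hX).image φ).card_pos)
      (by exact_mod_cast Finset.card_image_le)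
  have a5 : log ((X.image φ + Y.image φ).card : ℝ) ≤ log ((X * Y).card : ℝ) :=
    Real.log_le_log (by exact_mod_cast ((hX.image φ).add (hY.image φ)).card_pos)
      (by exact_mod_cast (Finset.card_le_card (himg X Y hX0 hY0)).trans Finset.card_image_le)
  have a6 : e' * log ((X.image φ).card : ℝ) ≤ 1 :=
    (mul_le_mul_of_nonneg_left a3 he'0.le).trans he'X
  have h4 : cost e' (log (((A * X).image φ).card : ℝ)) (X.image φ) (Y.image φ) ≤
      16 * (log ((A * X).card : ℝ) - log (X.card : ℝ)) +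
      2000 * (log ((X * Y).card : ℝ) - log (X.card : ℝ) / 2 - log (Y.card : ℝ) / 2) +
      (2016 * log 2 + 1) := by
    unfold cost D2
    linarith
  have h5 := mul_le_mul_of_nonneg_left h4 hAc.le
  have h6 : (A.card : ℝ) * log (A.card : ℝ) ≤ A.card * (
      cost e (log ((A + P).card : ℝ)) P Q +
      (16 * (log ((A * X).card : ℝ) - log (X.card : ℝ)) +
      2000 * (log ((X * Y).card : ℝ) - log (X.card : ℝ) / 2 - log (Y.card : ℝ) / 2) +
      (2016 * log 2 + 1)) + (W0 e + log 2)) := by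
    unfold W0
    linarith
  have h7 := le_of_mul_le_mul_left h6 hAc
  unfold cost D2 at h7
  linarith

/-- The sum-product inequality. -/
theorem ineq (e : ℝ) (he : 0 < e) (he1 : e ≤ 1) (A P Q X Y : Finset ℤ) (hA : A.Nonempty)
    (hP : P.Nonempty) (hQ : Q.Nonempty) (hX : X.Nonempty) (hY : Y.Nonempty)
    (hA0 : (0 : ℤ) ∉ A) (hX0 : (0 : ℤ) ∉ X) (hY0 : (0 : ℤ) ∉ Y) :
    (A.card : ℝ) ≤ Real.exp (Real.exp (10 ^ 9 / e)) * (P.card : ℝ) ^ e *
      (((A + P).card : ℝ) / P.card) ^ (16 : ℕ) *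
      (((P + Q).card : ℝ) / (P.card * Q.card : ℝ) ^ (1 / 2 : ℝ)) ^ (2000 : ℕ) *
      (((A * X).card : ℝ) / X.card) ^ (16 : ℕ) *
      (((X * Y).card : ℝ) / (X.card * Y.card : ℝ) ^ (1 / 2 : ℝ)) ^ (2000 : ℕ) := by
  have h := log_ineq e he he1 A P Q X Y hA hP hQ hX hY hA0 hX0 hY0
  have hW := W0_bound e he he1
  have cA : (0 : ℝ) < A.card := by exact_mod_cast hA.card_pos
  have cP : (0 : ℝ) < P.card := by exact_mod_cast hP.card_pos
  have cQ : (0 : ℝ) < Q.card := by exact_mod_cast hQ.card_pos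
  have cX : (0 : ℝ) < X.card := by exact_mod_cast hX.card_pos
  have cY : (0 : ℝ) < Y.card := by exact_mod_cast hY.card_pos
  have cAP : (0 : ℝ) < (A + P).card := by exact_mod_cast (hA.add hP).card_pos
  have cPQ : (0 : ℝ) < (P + Q).card := by exact_mod_cast (hP.add hQ).card_pos
  have cAX : (0 : ℝ) < (A * X).card := by exact_mod_cast (hA.mul hX).card_pos
  have cXY : (0 : ℝ) < (X * Y).card := by exact_mod_cast (hX.mul hY).card_pos
  rw [← Real.log_le_log_iff cA (by positivity)]
  rw [Real.log_mul (by positivity) (by positivity), Real.log_mul (by positivity) (by positivity),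
    Real.log_mul (by positivity) (by positivity), Real.log_mul (by positivity) (by positivity),
    Real.log_mul (by positivity) (by positivity), Real.log_exp, Real.log_rpow cP,
    Real.log_pow, Real.log_pow, Real.log_pow, Real.log_pow, Real.log_div cAP.ne' cP.ne',
    Real.log_div cPQ.ne' (by positivity), Real.log_div cAX.ne' cX.ne',
    Real.log_div cXY.ne' (by positivity), Real.log_rpow (by positivity),
    Real.log_rpow (by positivity), Real.log_mul cP.ne' cQ.ne', Real.log_mul cX.ne' cY.ne']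
  push_cast
  linarith

end Pool.Agent.H630.SP
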