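import Mathlib
import Pool.Agent.H630.SP.Ineq

/-!
# Partners without a condition on their doubling
-/

set_option autoImplicit false
set_option linter.unusedSectionVars false

namespace Pool.Agent.H630.SP

open Finset Real
open Pool.Agent.H87.LL
open Pool.Agent.H87.FS (cls va)
open scoped Pointwise BigOperators

/-- The inequality of Pluennecke and Ruzsa in logarithmic form. -/
theorem log_nsmul_le (A P : Finset ℤ) (hA : A.Nonempty) (hP : P.Nonempty) (n : ℕ) :
    log ((n • A).card : ℝ) ≤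
      n * (log ((A + P).card : ℝ) - log (P.card : ℝ)) + log (P.card : ℝ) := by
  have cP : (0 : ℝ) < P.card := by exact_mod_cast hP.card_pos
  have cAP : (0 : ℝ) < (A + P).card := by exact_mod_cast (hA.add hP).card_pos
  have hnA : (0 : ℝ) < (n • A).card := by exact_mod_cast (hA.nsmul).card_pos
  have h := Finset.pluennecke_ruzsa_inequality_nsmul_add hP A n
  have h2 : ((n • A).card : ℝ) ≤ (((A + P).card : ℝ) / P.card) ^ n * P.card := by
    have h3 : (((n • A).card : ℚ≥0) : ℝ) ≤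
        (((((P + A).card : ℚ≥0) / (P.card : ℚ≥0)) ^ n * (P.card : ℚ≥0) : ℚ≥0) : ℝ) := by
      exact_mod_cast h
    push_cast at h3
    rw [add_comm P A] at h3
    exact h3
  have h3 := Real.log_le_log hnA h2
  rw [Real.log_mul (by positivity) cP.ne', Real.log_pow, Real.log_div cAP.ne' cP.ne'] at h3
  exact h3

/-- A scale with a small doubling. -/
theorem exists_scale (A P : Finset ℤ) (hA : A.Nonempty) (hP : P.Nonempty) (j : ℕ) (hj : 1 ≤ j)
    (Λ : ℝ) (hΛ : 2 ^ j * (log ((A + P).card : ℝ) - log (P.card : ℝ)) + log (P.card : ℝ) ≤ Λ) :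
    ∃ Q : Finset ℤ, Q.Nonempty ∧ log (Q.card : ℝ) ≤ Λ ∧
      log ((A + Q).card : ℝ) ≤ log (Q.card : ℝ) + Λ / j ∧
      log ((Q + Q).card : ℝ) ≤ log (Q.card : ℝ) + Λ / j := by
  have hj0 : (0 : ℝ) < j := by exact_mod_cast hj
  have hκ : 0 ≤ log ((A + P).card : ℝ) - log (P.card : ℝ) := by
    rw [sub_nonneg]
    exact Real.log_le_log (by exact_mod_cast hP.card_pos)
      (by exact_mod_cast Finset.card_le_card_add_left hA)
  obtain ⟨u, hu⟩ : ∃ u : ℕ → ℝ, ∀ i, u i = log (((2 ^ i) • A).card : ℝ) := ⟨_, fun _ => rfl⟩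
  have hu0 : 0 ≤ u 0 := by
    rw [hu]
    exact Real.log_natCast_nonneg _
  have huj : ∀ i ≤ j, u i ≤ Λ := by
    intro i hi
    rw [hu]
    refine le_trans (log_nsmul_le A P hA hP (2 ^ i)) (le_trans ?_ hΛ)
    push_cast
    have h1 : (2 : ℝ) ^ i ≤ 2 ^ j := pow_le_pow_right₀ (by norm_num) hi
    nlinarith
  obtain ⟨i, hi, hi2⟩ : ∃ i < j, u (i + 1) - u i ≤ Λ / j := by
    by_contra hcon
    push Not at hcon
    have h1 : ∑ i ∈ Finset.range j, Λ / j < ∑ i ∈ Finset.range j, (u (i + 1) - u i) := by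
      refine Finset.sum_lt_sum_of_nonempty ⟨0, Finset.mem_range.2 (by omega)⟩ fun i hi => ?_
      exact hcon i (Finset.mem_range.1 hi)
    rw [Finset.sum_range_sub, Finset.sum_const, Finset.card_range, nsmul_eq_mul] at h1
    have h2 : (j : ℝ) * (Λ / j) = Λ := by field_simp
    rw [h2] at h1
    have := huj j le_rfl
    linarith
  have hQ : ((2 ^ i) • A).Nonempty := hA.nsmul
  have h2 : (2 ^ (i + 1)) • A = (2 ^ i) • A + (2 ^ i) • A := by
    rw [← add_nsmul]
    congr 1
    ring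
  refine ⟨(2 ^ i) • A, hQ, ?_, ?_, ?_⟩
  · rw [← hu]
    exact huj i hi.le
  · have h1 : ((A + (2 ^ i) • A).card : ℝ) ≤ (((2 ^ (i + 1)) • A).card : ℝ) := by
      have h3 : (2 ^ (i + 1)) • A = (A + (2 ^ i) • A) + (2 ^ i - 1) • A := by
        have h4 : A + (2 ^ i) • A = (1 + 2 ^ i) • A := by
          rw [add_nsmul, one_nsmul]
        rw [h4, ← add_nsmul]
        congr 1
        have : 1 ≤ 2 ^ i := Nat.one_le_two_pow
        rw [pow_succ]
        omega
      rw [h3]
      exact_mod_cast Finset.card_le_card_add_right hA.nsmul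
    have h4 : log ((A + (2 ^ i) • A).card : ℝ) ≤ u (i + 1) := by
      rw [hu]
      exact Real.log_le_log (by exact_mod_cast (hA.add hQ).card_pos) h1
    rw [← hu]
    linarith
  · rw [← h2, ← hu, ← hu]
    linarith

theorem cost_scale (e : ℝ) (he : 0 < e) (A Q : Finset ℤ) (s Λ : ℝ)
    (h1 : log (Q.card : ℝ) ≤ Λ) (h2 : log ((A + Q).card : ℝ) ≤ log (Q.card : ℝ) + s)
    (h3 : log ((Q + Q).card : ℝ) ≤ log (Q.card : ℝ) + s) :
    cost e (log ((A + Q).card : ℝ)) Q Q ≤ 2016 * s + e * Λ := by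
  unfold cost D2
  have := mul_le_mul_of_nonneg_left h1 he.le
  linarith

/-- Two partners. -/
theorem partners_log (e : ℝ) (he : 0 < e) (he1 : e ≤ 1) (j : ℕ) (hj : 1 ≤ j)
    (A P X : Finset ℤ) (hA : A.Nonempty) (hP : P.Nonempty) (hX : X.Nonempty)
    (hA0 : (0 : ℤ) ∉ A) (hX0 : (0 : ℤ) ∉ X) :
    log (A.card : ℝ) ≤ W0 e + 3000 + 2016 * 2 ^ j +
      (2016 / j + e) * (2 ^ j * (log ((A + P).card : ℝ) - log (P.card : ℝ)) +
        log (P.card : ℝ)) +
      2016 / j * (2 ^ j * (log ((A * X).card : ℝ) - log (X.card : ℝ)) + log (X.card : ℝ)) := by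
  classical
  have hj0 : (1 : ℝ) ≤ j := by exact_mod_cast hj
  have hXc : (0 : ℝ) < X.card := by exact_mod_cast hX.card_pos
  have hAc : (0 : ℝ) < A.card := by exact_mod_cast hA.card_pos
  have hlX : 0 ≤ log (X.card : ℝ) := Real.log_natCast_nonneg _
  have hlog2 : 0 < log 2 := Real.log_pos (by norm_num)
  have hlog2' := Real.log_two_lt_d9
  have hκX : 0 ≤ log ((A * X).card : ℝ) - log (X.card : ℝ) := by
    rw [sub_nonneg]
    refine Real.log_le_log hXc ?_
    obtain ⟨a, ha⟩ := hA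
    have ha0 : a ≠ 0 := fun h => hA0 (h ▸ ha)
    have h1 : X.image (fun x => a * x) ⊆ A * X := by
      intro z hz
      obtain ⟨x, hx, rfl⟩ := Finset.mem_image.1 hz
      exact Finset.mul_mem_mul ha hx
    have h2 := Finset.card_le_card h1
    rw [Finset.card_image_of_injective _ (mul_right_injective₀ ha0)] at h2
    exact_mod_cast h2
  set Λ : ℝ := 2 ^ j * (log ((A * X).card : ℝ) - log (X.card : ℝ) + log 2) + log (X.card : ℝ)
    with hΛ
  have hΛ0 : 0 ≤ Λ := by positivity
  set e' : ℝ := 1 / (1 + Λ) with he'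
  have he'0 : 0 < e' := by positivity
  have he'1 : e' ≤ 1 := by
    rw [he', div_le_one (by linarith)]
    linarith
  have he'X : e' * Λ ≤ 1 := by
    rw [he', one_div, inv_mul_le_iff₀ (by linarith)]
    linarith
  obtain ⟨φ, hmul, hinj, hent⟩ := entropy_le e e' he he1 he'0 he'1 (A ∪ X) (by
    intro z hz h0
    rw [h0] at hz
    simp only [Finset.mem_union] at hz
    tauto)
  have h1 := hent A Finset.subset_union_left
  -- the additive side
  obtain ⟨Q, hQ, hQ1, hQ2, hQ3⟩ := exists_scale A P hA hP j hj _ le_rfl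
  have h2 := Sf_le_cost e he A (fun r => r) Q Q (A + Q) hQ hQ
    (fun r hr p hp => Finset.add_mem_add hr hp)
  have h3 := cost_scale e he A Q _ _ hQ1 hQ2 hQ3
  -- the multiplicative side
  have himg : A.image φ + X.image φ ⊆ (A * X).image φ := by
    intro z hz
    obtain ⟨x, hx, y, hy, rfl⟩ := Finset.mem_add.1 hz
    obtain ⟨u, hu, rfl⟩ := Finset.mem_image.1 hx
    obtain ⟨v, hv, rfl⟩ := Finset.mem_image.1 hy
    exact Finset.mem_image.2 ⟨u * v, Finset.mul_mem_mul hu hv,
      hmul u v (fun h => hA0 (h ▸ hu)) (fun h => hX0 (h ▸ hv))⟩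
  have hfib : (X.card : ℝ) ≤ 2 * (X.image φ).card := by
    have h3 : X.card ≤ 2 * (X.image φ).card := by
      refine Finset.card_le_mul_card_image X 2 ?_
      intro b hb
      obtain ⟨u, hu, rfl⟩ := Finset.mem_image.1 hb
      have h4 : (X.filter fun x => φ x = φ u) ⊆ ({u, -u} : Finset ℤ) := by
        intro x hx
        obtain ⟨h5, h6⟩ := Finset.mem_filter.1 hx
        have h7 := hinj x (Finset.mem_union_right _ h5) u (Finset.mem_union_right _ hu) h6
        rcases Int.natAbs_eq_natAbs_iff.1 h7 with h8 | h8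
        · simp [h8]
        · simp [h8]
      exact (Finset.card_le_card h4).trans Finset.card_le_two
    exact_mod_cast h3
  have hXi : (0 : ℝ) < (X.image φ).card := by exact_mod_cast (hX.image φ).card_pos
  have a1 : log (X.card : ℝ) ≤ log 2 + log ((X.image φ).card : ℝ) := by
    rw [← Real.log_mul (by norm_num) hXi.ne']
    exact Real.log_le_log hXc hfib
  have a3 : log ((X.image φ).card : ℝ) ≤ log (X.card : ℝ) :=
    Real.log_le_log hXi (by exact_mod_cast Finset.card_image_le)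
  have a4 : log ((A.image φ + X.image φ).card : ℝ) ≤ log ((A * X).card : ℝ) :=
    Real.log_le_log (by exact_mod_cast ((hA.image φ).add (hX.image φ)).card_pos)
      (by exact_mod_cast (Finset.card_le_card himg).trans Finset.card_image_le)
  obtain ⟨Y, hY, hY1, hY2, hY3⟩ := exists_scale (A.image φ) (X.image φ) (hA.image φ)
    (hX.image φ) j hj Λ (by
      rw [hΛ]
      have h4 : log ((A.image φ + X.image φ).card : ℝ) - log ((X.image φ).card : ℝ) ≤
          log ((A * X).card : ℝ) - log (X.card : ℝ) + log 2 := by linarith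
      have h5 := mul_le_mul_of_nonneg_left h4 (show (0 : ℝ) ≤ 2 ^ j by positivity)
      linarith)
  have h4 := Sf_le_cost e' he'0 A φ Y Y (A.image φ + Y) hY hY
    (fun r hr p hp => Finset.add_mem_add (Finset.mem_image_of_mem φ hr) hp)
  have h5 := cost_scale e' he'0 (A.image φ) Y _ _ hY1 hY2 hY3
  have h6 := mul_le_mul_of_nonneg_left h3 hAc.le
  have h7 := mul_le_mul_of_nonneg_left (h5.trans (add_le_add_right he'X _)) hAc.le
  set Λ' : ℝ := 2 ^ j * (log ((A + P).card : ℝ) - log (P.card : ℝ)) + log (P.card : ℝ) with hΛ'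
  have h8 : (A.card : ℝ) * log (A.card : ℝ) ≤ A.card * ((2016 * (Λ' / j) + e * Λ') +
      (2016 * (Λ / j) + 1) + (W0 e + log 2)) := by
    unfold W0
    linarith
  have h9 := le_of_mul_le_mul_left h8 hAc
  have h10 : 2016 * (Λ / j) = 2016 / j * (2 ^ j * (log ((A * X).card : ℝ) - log (X.card : ℝ)) +
      log (X.card : ℝ)) + 2016 / j * (2 ^ j * log 2) := by
    rw [hΛ]
    ring
  have h11 : 2016 / (j : ℝ) * (2 ^ j * log 2) ≤ 2016 * 2 ^ j := by
    have h12 : 2016 / (j : ℝ) ≤ 2016 := div_le_self (by norm_num) hj0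
    have h13 : (2 : ℝ) ^ j * log 2 ≤ 2 ^ j := by
      have : (0 : ℝ) < 2 ^ j := by positivity
      nlinarith
    exact mul_le_mul h12 h13 (by positivity) (by norm_num)
  have h12 : 2016 * (Λ' / j) + e * Λ' = (2016 / j + e) * Λ' := by ring
  linarith

end Pool.Agent.H630.SP
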