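import Mathlib
import Pool.Agent.H630.SP.Scale

/-!
# Consequences of the sum-product inequality
-/

set_option autoImplicit false
set_option linter.unusedSectionVars false

namespace Pool.Agent.H630.SP

open Finset Real
open Pool.Agent.H87.LL
open scoped Pointwise BigOperators

/-- The inequality with a factor as in the divisor bound. -/
theorem ineq_divisor (A P Q X Y : Finset ℤ) (hA : A.Nonempty)
    (hP : 16 ≤ P.card) (hQ : Q.Nonempty) (hX : X.Nonempty) (hY : Y.Nonempty)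
    (hA0 : (0 : ℤ) ∉ A) (hX0 : (0 : ℤ) ∉ X) (hY0 : (0 : ℤ) ∉ Y) :
    (A.card : ℝ) ≤ Real.exp (3 * 10 ^ 9 * log P.card / log (log P.card)) *
      (((A + P).card : ℝ) / P.card) ^ (16 : ℕ) *
      (((P + Q).card : ℝ) / (P.card * Q.card : ℝ) ^ (1 / 2 : ℝ)) ^ (2000 : ℕ) *
      (((A * X).card : ℝ) / X.card) ^ (16 : ℕ) *
      (((X * Y).card : ℝ) / (X.card * Y.card : ℝ) ^ (1 / 2 : ℝ)) ^ (2000 : ℕ) := by
  have hP' : P.Nonempty := Finset.card_pos.1 (by omega)
  have cA : (0 : ℝ) < A.card := by exact_mod_cast hA.card_pos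
  have cP : (0 : ℝ) < P.card := by exact_mod_cast hP'.card_pos
  have cQ : (0 : ℝ) < Q.card := by exact_mod_cast hQ.card_pos
  have cX : (0 : ℝ) < X.card := by exact_mod_cast hX.card_pos
  have cY : (0 : ℝ) < Y.card := by exact_mod_cast hY.card_pos
  have cAP : (0 : ℝ) < (A + P).card := by exact_mod_cast (hA.add hP').card_pos
  have cPQ : (0 : ℝ) < (P + Q).card := by exact_mod_cast (hP'.add hQ).card_pos
  have cAX : (0 : ℝ) < (A * X).card := by exact_mod_cast (hA.mul hX).card_pos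
  have cXY : (0 : ℝ) < (X * Y).card := by exact_mod_cast (hX.mul hY).card_pos
  set t : ℝ := log (P.card : ℝ) with ht
  have ht1 : 2 ≤ t := by
    have h1 : log (16 : ℝ) ≤ t := Real.log_le_log (by norm_num) (by exact_mod_cast hP)
    have h2 : log (16 : ℝ) = 4 * log 2 := by
      rw [show (16 : ℝ) = 2 ^ 4 by norm_num, Real.log_pow]
      norm_num
    have := Real.log_two_gt_d9
    linarith
  have hlt : 0 < log t := Real.log_pos (by linarith)
  have key : log (A.card : ℝ) ≤ 3 * 10 ^ 9 * t / log t +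
      16 * (log ((A + P).card : ℝ) - t) +
      2000 * (log ((P + Q).card : ℝ) - t / 2 - log (Q.card : ℝ) / 2) +
      16 * (log ((A * X).card : ℝ) - log (X.card : ℝ)) +
      2000 * (log ((X * Y).card : ℝ) - log (X.card : ℝ) / 2 - log (Y.card : ℝ) / 2) := by
    rcases le_or_gt (log t) (2 * 10 ^ 9) with h | h
    · have h1 : t ≤ 3 * 10 ^ 9 * t / log t := by
        rw [le_div_iff₀ hlt]
        nlinarith
      have h2 : log (A.card : ℝ) ≤ log ((A + P).card : ℝ) :=
        Real.log_le_log cA (by exact_mod_cast Finset.card_le_card_add_right hP')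
      have h3 : t ≤ log ((A + P).card : ℝ) :=
        Real.log_le_log cP (by exact_mod_cast Finset.card_le_card_add_left hA)
      have h4 : t ≤ log ((P + Q).card : ℝ) :=
        Real.log_le_log cP (by exact_mod_cast Finset.card_le_card_add_right hQ)
      have h5 : log (Q.card : ℝ) ≤ log ((P + Q).card : ℝ) :=
        Real.log_le_log cQ (by exact_mod_cast Finset.card_le_card_add_left hP')
      have inj : ∀ U V : Finset ℤ, U.Nonempty → (0 : ℤ) ∉ U → V.Nonempty →
          log (V.card : ℝ) ≤ log ((U * V).card : ℝ) := by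
        intro U V hU hU0 hV
        refine Real.log_le_log (by exact_mod_cast hV.card_pos) ?_
        obtain ⟨a, ha⟩ := hU
        have ha0 : a ≠ 0 := fun h => hU0 (h ▸ ha)
        have h1 : V.image (fun x => a * x) ⊆ U * V := by
          intro z hz
          obtain ⟨x, hx, rfl⟩ := Finset.mem_image.1 hz
          exact Finset.mul_mem_mul ha hx
        have h2 := Finset.card_le_card h1
        rw [Finset.card_image_of_injective _ (mul_right_injective₀ ha0)] at h2
        exact_mod_cast h2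
      have h6 := inj A X hA hA0 hX
      have h7 := inj X Y hX hX0 hY
      have h8 := inj Y X hY hY0 hX
      rw [mul_comm Y X] at h8
      linarith
    · set e : ℝ := 2 * 10 ^ 9 / log t with he
      have he0 : 0 < e := by positivity
      have he1 : e ≤ 1 := by
        rw [he, div_le_one hlt]
        exact h.le
      have h1 := log_ineq e he0 he1 A P Q X Y hA hP' hQ hX hY hA0 hX0 hY0
      have h2 := W0_bound e he0 he1
      have h3 : (10 : ℝ) ^ 9 / e = log t / 2 := by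
        rw [he]
        field_simp
      rw [h3] at h2
      have ht0 : 0 < t := by linarith
      have h4 : Real.exp (log t / 2) = √t := by
        rw [Real.exp_half, Real.exp_log ht0]
      rw [h4] at h2
      have h5 : log t ≤ 2 * √t := by
        have h6 : log (√t) ≤ √t - 1 := Real.log_le_sub_one_of_pos (Real.sqrt_pos.2 ht0)
        rw [Real.log_sqrt ht0.le] at h6
        linarith
      have h6 : √t ≤ 10 ^ 9 * t / log t := by
        rw [le_div_iff₀ hlt]
        have h7 : √t * √t = t := Real.mul_self_sqrt ht0.le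
        have h8 : √t * log t ≤ √t * (2 * √t) := mul_le_mul_of_nonneg_left h5 (Real.sqrt_nonneg _)
        nlinarith
      have h7 : e * t = 2 * 10 ^ 9 * t / log t := by
        rw [he]
        ring
      have h8 : 3 * 10 ^ 9 * t / log t = 2 * 10 ^ 9 * t / log t + 10 ^ 9 * t / log t := by
        ring
      linarith
  rw [← Real.log_le_log_iff cA (by positivity)]
  rw [Real.log_mul (by positivity) (by positivity), Real.log_mul (by positivity) (by positivity),
    Real.log_mul (by positivity) (by positivity), Real.log_mul (by positivity) (by positivity),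
    Real.log_exp,
    Real.log_pow, Real.log_pow, Real.log_pow, Real.log_pow, Real.log_div cAP.ne' cP.ne',
    Real.log_div cPQ.ne' (by positivity), Real.log_div cAX.ne' cX.ne',
    Real.log_div cXY.ne' (by positivity), Real.log_rpow (by positivity),
    Real.log_rpow (by positivity), Real.log_mul cP.ne' cQ.ne', Real.log_mul cX.ne' cY.ne', ← ht]
  push_cast
  linarith

/-- The intersection of a set with few sums and a set with few products. -/
theorem inter (e : ℝ) (he : 0 < e) (he1 : e ≤ 1) (P X : Finset ℤ) (hX0 : (0 : ℤ) ∉ X)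
    (hP : P.Nonempty) (hX : X.Nonempty) :
    ((P ∩ X).card : ℝ) ≤ Real.exp (Real.exp (10 ^ 9 / e)) * (P.card : ℝ) ^ e *
      (((P + P).card : ℝ) / P.card) ^ (2016 : ℕ) * (((X * X).card : ℝ) / X.card) ^ (2016 : ℕ) := by
  rcases (P ∩ X).eq_empty_or_nonempty with h | h
  · rw [h, Finset.card_empty, Nat.cast_zero]
    positivity
  have cP : (0 : ℝ) < P.card := by exact_mod_cast hP.card_pos
  have cX : (0 : ℝ) < X.card := by exact_mod_cast hX.card_pos
  have h1 := ineq e he he1 (P ∩ X) P P X X h hP hP hX hX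
    (fun h0 => hX0 (Finset.mem_inter.1 h0).2) hX0 hX0
  have h2 : ((P ∩ X + P).card : ℝ) ≤ (P + P).card := by
    exact_mod_cast Finset.card_le_card (Finset.add_subset_add_right Finset.inter_subset_left)
  have h3 : (((P ∩ X) * X).card : ℝ) ≤ (X * X).card := by
    exact_mod_cast Finset.card_le_card (Finset.mul_subset_mul_right Finset.inter_subset_right)
  have h4 : ∀ x : ℝ, 0 < x → (x * x) ^ (1 / 2 : ℝ) = x := by
    intro x hx
    rw [← Real.sqrt_eq_rpow, Real.sqrt_mul_self hx.le]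
  rw [h4 _ cP, h4 _ cX] at h1
  refine h1.trans ?_
  have h5 : (((P ∩ X + P).card : ℝ) / P.card) ^ (16 : ℕ) ≤
      (((P + P).card : ℝ) / P.card) ^ (16 : ℕ) := by gcongr
  have h6 : ((((P ∩ X) * X).card : ℝ) / X.card) ^ (16 : ℕ) ≤
      (((X * X).card : ℝ) / X.card) ^ (16 : ℕ) := by gcongr
  set c : ℝ := Real.exp (Real.exp (10 ^ 9 / e)) * (P.card : ℝ) ^ e
  set u : ℝ := ((P + P).card : ℝ) / P.card
  set v : ℝ := ((X * X).card : ℝ) / X.card
  calc c * (((P ∩ X + P).card : ℝ) / P.card) ^ (16 : ℕ) * u ^ (2000 : ℕ) *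
        ((((P ∩ X) * X).card : ℝ) / X.card) ^ (16 : ℕ) * v ^ (2000 : ℕ) ≤
        c * u ^ (16 : ℕ) * u ^ (2000 : ℕ) * v ^ (16 : ℕ) * v ^ (2000 : ℕ) := by gcongr
    _ = c * u ^ (2016 : ℕ) * v ^ (2016 : ℕ) := by ring

/-- The growth of the iterated product sets at every step. -/
theorem growth (e : ℝ) (he : 0 < e) (he1 : e ≤ 1) (A P Q : Finset ℤ) (hA : A.Nonempty)
    (hP : P.Nonempty) (hQ : Q.Nonempty) (hA0 : (0 : ℤ) ∉ A) (m : ℕ) (hm : 1 ≤ m) :
    (A.card : ℝ) ≤ Real.exp (Real.exp (10 ^ 9 / e)) * (P.card : ℝ) ^ e *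
      (((A + P).card : ℝ) / P.card) ^ (16 : ℕ) *
      (((P + Q).card : ℝ) / (P.card * Q.card : ℝ) ^ (1 / 2 : ℝ)) ^ (2000 : ℕ) *
      (((A ^ (2 * m)).card : ℝ) / (A ^ m).card) ^ (2016 : ℕ) := by
  have hpow0 : ∀ n : ℕ, (0 : ℤ) ∉ A ^ n := by
    intro n
    induction n with
    | zero => simp
    | succ n ih =>
      rw [pow_succ]
      intro h
      obtain ⟨x, hx, y, hy, hxy⟩ := Finset.mem_mul.1 h
      rcases mul_eq_zero.1 hxy with h1 | h1
      · exact ih (h1 ▸ hx)
      · exact hA0 (h1 ▸ hy)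
  have hAm : (A ^ m).Nonempty := hA.pow
  have cm : (0 : ℝ) < (A ^ m).card := by exact_mod_cast hAm.card_pos
  have h1 := ineq e he he1 A P Q (A ^ m) (A ^ m) hA hP hQ hAm hAm hA0 (hpow0 m) (hpow0 m)
  have h4 : ∀ x : ℝ, 0 < x → (x * x) ^ (1 / 2 : ℝ) = x := by
    intro x hx
    rw [← Real.sqrt_eq_rpow, Real.sqrt_mul_self hx.le]
  have h5 : A ^ m * A ^ m = A ^ (2 * m) := by rw [two_mul, pow_add]
  rw [h4 _ cm, h5] at h1
  have h6 : ((A * A ^ m).card : ℝ) ≤ (A ^ (2 * m)).card := by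
    have h7 : A ^ (2 * m) = A ^ (m - 1) * (A * A ^ m) := by
      rw [← mul_assoc, ← pow_succ, ← pow_add]
      congr 1
      omega
    rw [h7]
    obtain ⟨a, ha⟩ : (A ^ (m - 1)).Nonempty := hA.pow
    have ha0 : a ≠ 0 := fun h => hpow0 (m - 1) (h ▸ ha)
    have h8 : (A * A ^ m).image (fun x => a * x) ⊆ A ^ (m - 1) * (A * A ^ m) := by
      intro z hz
      obtain ⟨x, hx, rfl⟩ := Finset.mem_image.1 hz
      exact Finset.mul_mem_mul ha hx
    have h9 := Finset.card_le_card h8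
    rw [Finset.card_image_of_injective _ (mul_right_injective₀ ha0)] at h9
    exact_mod_cast h9
  refine h1.trans ?_
  set c : ℝ := Real.exp (Real.exp (10 ^ 9 / e)) * (P.card : ℝ) ^ e *
      (((A + P).card : ℝ) / P.card) ^ (16 : ℕ) *
      (((P + Q).card : ℝ) / (P.card * Q.card : ℝ) ^ (1 / 2 : ℝ)) ^ (2000 : ℕ)
  have hc : 0 ≤ c := by positivity
  have h7 : ((A * A ^ m).card : ℝ) / (A ^ m).card ≤ ((A ^ (2 * m)).card : ℝ) / (A ^ m).card :=
    div_le_div_of_nonneg_right h6 cm.le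
  set v : ℝ := ((A ^ (2 * m)).card : ℝ) / (A ^ m).card
  calc c * (((A * A ^ m).card : ℝ) / (A ^ m).card) ^ (16 : ℕ) * v ^ (2000 : ℕ) ≤
        c * v ^ (16 : ℕ) * v ^ (2000 : ℕ) := by gcongr
    _ = c * v ^ (2016 : ℕ) := by ring

/-- Two partners of bounded size. -/
theorem partners (M : ℝ) (hM : 1 ≤ M) : ∃ c : ℝ, 0 < c ∧ ∀ A P X : Finset ℤ, A.Nonempty →
    P.Nonempty → X.Nonempty → (0 : ℤ) ∉ A → (0 : ℤ) ∉ X → (P.card : ℝ) ≤ (A.card : ℝ) ^ M →
    (X.card : ℝ) ≤ (A.card : ℝ) ^ M →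
    c * (A.card : ℝ) ^ (Real.exp (-(12000 * M))) ≤
      ((A + P).card : ℝ) / P.card * (((A * X).card : ℝ) / X.card) := by
  set j : ℕ := ⌈16128 * M⌉₊ with hj
  have hj1 : 16128 * M ≤ j := Nat.le_ceil _
  have hj2 : (j : ℝ) ≤ 16129 * M := by
    have := Nat.ceil_lt_add_one (show 0 ≤ 16128 * M by positivity)
    linarith
  have hjpos : 1 ≤ j := by
    have : (1 : ℝ) ≤ j := by linarith
    exact_mod_cast this
  set e : ℝ := 1 / (4 * M) with he
  have he0 : 0 < e := by positivity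
  have he1 : e ≤ 1 := by
    rw [he, div_le_one (by positivity)]
    linarith
  set W : ℝ := W0 e + 3000 + 2016 * 2 ^ j with hW
  have hW0 : 0 ≤ W0 e := by
    unfold W0
    refine mul_nonneg (by positivity) (Real.log_nonneg ?_)
    rw [le_div_iff₀ he0]
    linarith
  have hWpos : 0 ≤ W := by positivity
  refine ⟨Real.exp (-(2 * W)), Real.exp_pos _, ?_⟩
  intro A P X hA hP hX hA0 hX0 hPM hXM
  have cA : (0 : ℝ) < A.card := by exact_mod_cast hA.card_pos
  have cP : (0 : ℝ) < P.card := by exact_mod_cast hP.card_pos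
  have cX : (0 : ℝ) < X.card := by exact_mod_cast hX.card_pos
  have cAP : (0 : ℝ) < (A + P).card := by exact_mod_cast (hA.add hP).card_pos
  have cAX : (0 : ℝ) < (A * X).card := by exact_mod_cast (hA.mul hX).card_pos
  have h1 := partners_log e he0 he1 j hjpos A P X hA hP hX hA0 hX0
  have lP : log (P.card : ℝ) ≤ M * log (A.card : ℝ) := by
    rw [← Real.log_rpow cA]
    exact Real.log_le_log cP hPM
  have lX : log (X.card : ℝ) ≤ M * log (A.card : ℝ) := by
    rw [← Real.log_rpow cA]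
    exact Real.log_le_log cX hXM
  have hL : 0 ≤ log (A.card : ℝ) := Real.log_natCast_nonneg _
  have k1 : 0 ≤ log ((A + P).card : ℝ) - log (P.card : ℝ) := by
    rw [sub_nonneg]
    exact Real.log_le_log cP (by exact_mod_cast Finset.card_le_card_add_left hA)
  have k2 : 0 ≤ log ((A * X).card : ℝ) - log (X.card : ℝ) := by
    rw [sub_nonneg]
    refine Real.log_le_log cX ?_
    obtain ⟨a, ha⟩ := hA
    have ha0 : a ≠ 0 := fun h => hA0 (h ▸ ha)
    have h1 : X.image (fun x => a * x) ⊆ A * X := by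
      intro z hz
      obtain ⟨x, hx, rfl⟩ := Finset.mem_image.1 hz
      exact Finset.mul_mem_mul ha hx
    have h2 := Finset.card_le_card h1
    rw [Finset.card_image_of_injective _ (mul_right_injective₀ ha0)] at h2
    exact_mod_cast h2
  set L : ℝ := log (A.card : ℝ) with hLdef
  set κ₁ : ℝ := log ((A + P).card : ℝ) - log (P.card : ℝ) with hκ1
  set κ₂ : ℝ := log ((A * X).card : ℝ) - log (X.card : ℝ) with hκ2
  have hjr : (0 : ℝ) < j := by exact_mod_cast hjpos
  have a1 : 2016 / (j : ℝ) ≤ 1 / (8 * M) := by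
    rw [div_le_div_iff₀ hjr (by positivity)]
    linarith
  have p2 : (0 : ℝ) < 2 ^ j := by positivity
  have b1 : (2016 / (j : ℝ) + e) * (2 ^ j * κ₁ + log (P.card : ℝ)) ≤
      (1 / (8 * M) + e) * (2 ^ j * κ₁ + M * L) := by
    refine mul_le_mul (by linarith) (by linarith) ?_ (by positivity)
    have := Real.log_natCast_nonneg P.card
    positivity
  have b2 : 2016 / (j : ℝ) * (2 ^ j * κ₂ + log (X.card : ℝ)) ≤
      1 / (8 * M) * (2 ^ j * κ₂ + M * L) := by
    refine mul_le_mul a1 (by linarith) ?_ (by positivity)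
    have := Real.log_natCast_nonneg X.card
    positivity
  have b3 : (1 / (8 * M) + e) * (2 ^ j * κ₁ + M * L) + 1 / (8 * M) * (2 ^ j * κ₂ + M * L) ≤
      2 ^ j * (κ₁ + κ₂) / 2 + L / 2 := by
    have e1 : (1 / (8 * M) + e) * (2 ^ j * κ₁ + M * L) + 1 / (8 * M) * (2 ^ j * κ₂ + M * L) =
        3 / 8 * (2 ^ j * κ₁) * (1 / M) + 1 / 8 * (2 ^ j * κ₂) * (1 / M) + L / 2 := by
      rw [he]
      field_simp
      ring
    rw [e1]
    have e2 : 1 / M ≤ 1 := by
      rw [div_le_one (by linarith)]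
      exact hM
    have e3 : 0 ≤ 2 ^ j * κ₁ := by positivity
    have e4 : 0 ≤ 2 ^ j * κ₂ := by positivity
    have e5 : 3 / 8 * (2 ^ j * κ₁) * (1 / M) ≤ 3 / 8 * (2 ^ j * κ₁) * 1 :=
      mul_le_mul_of_nonneg_left e2 (by positivity)
    have e6 : 1 / 8 * (2 ^ j * κ₂) * (1 / M) ≤ 1 / 8 * (2 ^ j * κ₂) * 1 :=
      mul_le_mul_of_nonneg_left e2 (by positivity)
    linarith
  have h2 : L ≤ 2 * W + 2 ^ j * (κ₁ + κ₂) := by linarith
  have h3 : Real.exp (-(12000 * M)) * 2 ^ j ≤ 1 := by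
    have h4 : (2 : ℝ) ^ j = Real.exp (j * log 2) := by
      rw [mul_comm, Real.exp_mul, Real.exp_log (by norm_num), Real.rpow_natCast]
    rw [h4, ← Real.exp_add]
    apply Real.exp_le_one_iff.2
    have h5 := Real.log_two_lt_d9
    have h6 : (j : ℝ) * log 2 ≤ 16129 * M * 0.6931471808 := by
      refine mul_le_mul hj2 h5.le (Real.log_nonneg (by norm_num)) (by positivity)
    norm_num at h6 ⊢
    linarith
  have h4 : Real.exp (-(12000 * M)) * L ≤ 2 * W + (κ₁ + κ₂) := by
    have h5 := mul_le_mul_of_nonneg_left h2 (Real.exp_pos (-(12000 * M))).le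
    have h6 : Real.exp (-(12000 * M)) ≤ 1 := Real.exp_le_one_iff.2 (by linarith)
    have h7 : Real.exp (-(12000 * M)) * (2 * W) ≤ 1 * (2 * W) :=
      mul_le_mul_of_nonneg_right h6 (by linarith)
    have h8 : Real.exp (-(12000 * M)) * (2 ^ j * (κ₁ + κ₂)) ≤ 1 * (κ₁ + κ₂) := by
      rw [← mul_assoc]
      exact mul_le_mul_of_nonneg_right h3 (by linarith)
    linarith
  rw [← Real.log_le_log_iff (by positivity) (by positivity), Real.log_mul (by positivity)
    (by positivity), Real.log_exp, Real.log_rpow cA, Real.log_mul (by positivity)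
    (by positivity), Real.log_div cAP.ne' cP.ne', Real.log_div cAX.ne' cX.ne']
  linarith

/-- Removing the large intersections with the sets of a family. -/
theorem peel (Good : Finset ℤ → Prop) (T : ℝ) (hT : 0 < T) : ∀ n : ℕ, ∀ A : Finset ℤ,
    A.card = n → ∃ B ⊆ A, ∃ S : Finset (Finset ℤ), (∀ P ∈ S, Good P) ∧
      (S.card : ℝ) * T ≤ A.card ∧ A \ B ⊆ S.biUnion id ∧
      ∀ P, Good P → ((B ∩ P).card : ℝ) ≤ T := by
  classical
  intro n
  induction n using Nat.strong_induction_on with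
  | _ n ih =>
    intro A hn
    by_cases h : ∃ P, Good P ∧ T < ((A ∩ P).card : ℝ)
    · obtain ⟨P, hP, hPT⟩ := h
      have hpos : 0 < (A ∩ P).card := by
        have : (0 : ℝ) < (A ∩ P).card := hT.trans hPT
        exact_mod_cast this
      have hsd : (A \ P).card + (A ∩ P).card = A.card := Finset.card_sdiff_add_card_inter A P
      obtain ⟨B, hBA, S, hS1, hS2, hS3, hS4⟩ := ih (A \ P).card (by omega) (A \ P) rfl
      refine ⟨B, hBA.trans Finset.sdiff_subset, insert P S, ?_, ?_, ?_, hS4⟩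
      · intro Q hQ
        rcases Finset.mem_insert.1 hQ with h1 | h1
        · rw [h1]
          exact hP
        · exact hS1 Q h1
      · have h1 : ((insert P S).card : ℝ) ≤ S.card + 1 := by
          exact_mod_cast Finset.card_insert_le P S
        have h2 : ((A \ P).card : ℝ) + (A ∩ P).card = A.card := by exact_mod_cast hsd
        nlinarith
      · intro a ha
        obtain ⟨h1, h2⟩ := Finset.mem_sdiff.1 ha
        rw [Finset.biUnion_insert, Finset.mem_union]
        by_cases h3 : a ∈ P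
        · exact Or.inl h3
        · exact Or.inr (hS3 (Finset.mem_sdiff.2 ⟨Finset.mem_sdiff.2 ⟨h1, h3⟩, h2⟩))
    · push Not at h
      exact ⟨A, Finset.Subset.refl A, ∅, by simp, by simp, by simp, h⟩

/-- The two decompositions, for two families of sets with small intersections. -/
theorem decomp (Good Good' : Finset ℤ → Prop) (A : Finset ℤ) (T U : ℝ) (hT : 0 < T)
    (hU : 0 ≤ U) (h : ∀ P X, Good P → Good' X → ((P ∩ X).card : ℝ) ≤ U) :
    ∃ B ⊆ A, (∀ P, Good P → ((B ∩ P).card : ℝ) ≤ T) ∧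
      ∀ X, Good' X → (((A \ B) ∩ X).card : ℝ) * T ≤ A.card * U := by
  classical
  obtain ⟨B, hBA, S, hS1, hS2, hS3, hS4⟩ := peel Good T hT A.card A rfl
  refine ⟨B, hBA, hS4, ?_⟩
  intro X hX
  have h1 : (A \ B) ∩ X ⊆ S.biUnion fun P => P ∩ X := by
    intro a ha
    obtain ⟨h2, h3⟩ := Finset.mem_inter.1 ha
    obtain ⟨P, hP, haP⟩ := Finset.mem_biUnion.1 (hS3 h2)
    exact Finset.mem_biUnion.2 ⟨P, hP, Finset.mem_inter.2 ⟨haP, h3⟩⟩
  have h2 : (((A \ B) ∩ X).card : ℝ) ≤ ∑ P ∈ S, ((P ∩ X).card : ℝ) := by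
    exact_mod_cast (Finset.card_le_card h1).trans Finset.card_biUnion_le
  have h3 : ∑ P ∈ S, ((P ∩ X).card : ℝ) ≤ S.card * U := by
    rw [← nsmul_eq_mul]
    exact Finset.sum_le_card_nsmul S _ U fun P hP => h P X (hS1 P hP) hX
  calc (((A \ B) ∩ X).card : ℝ) * T ≤ (S.card * U) * T :=
        mul_le_mul_of_nonneg_right (h2.trans h3) hT.le
    _ = (S.card * T) * U := by ring
    _ ≤ A.card * U := mul_le_mul_of_nonneg_right hS2 hU

/-- The doubling conditions. -/
theorem inter_bound (M η : ℝ) (hM : 1 ≤ M) (hη : 0 < η) (hη1 : η ≤ 1) : ∃ C : ℝ, 0 < C ∧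
    ∀ (n : ℝ) (P X : Finset ℤ), 1 ≤ n → P.Nonempty → X.Nonempty → (0 : ℤ) ∉ X →
      (P.card : ℝ) ≤ n ^ M → ((P + P).card : ℝ) ≤ n ^ (η / 5000) * P.card →
      ((X * X).card : ℝ) ≤ n ^ (η / 5000) * X.card → ((P ∩ X).card : ℝ) ≤ C * n ^ η := by
  set e : ℝ := η / (10 * M) with he
  have he0 : 0 < e := by positivity
  have he1 : e ≤ 1 := by
    rw [he, div_le_one (by positivity)]
    linarith
  refine ⟨Real.exp (Real.exp (10 ^ 9 / e)), Real.exp_pos _, ?_⟩
  intro n P X hn hP hX hX0 hPn hPP hXX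
  have cP : (0 : ℝ) < P.card := by exact_mod_cast hP.card_pos
  have cX : (0 : ℝ) < X.card := by exact_mod_cast hX.card_pos
  have hn0 : 0 < n := by linarith
  have h1 := inter e he0 he1 P X hX0 hP hX
  have h2 : ((P + P).card : ℝ) / P.card ≤ n ^ (η / 5000) := by
    rw [div_le_iff₀ cP]
    exact hPP
  have h3 : ((X * X).card : ℝ) / X.card ≤ n ^ (η / 5000) := by
    rw [div_le_iff₀ cX]
    exact hXX
  have h4 : (P.card : ℝ) ^ e ≤ n ^ (M * e) := by
    rw [Real.rpow_mul hn0.le]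
    exact Real.rpow_le_rpow cP.le hPn he0.le
  refine h1.trans ?_
  calc Real.exp (Real.exp (10 ^ 9 / e)) * (P.card : ℝ) ^ e *
      (((P + P).card : ℝ) / P.card) ^ (2016 : ℕ) * (((X * X).card : ℝ) / X.card) ^ (2016 : ℕ) ≤
      Real.exp (Real.exp (10 ^ 9 / e)) * n ^ (M * e) *
      (n ^ (η / 5000)) ^ (2016 : ℕ) * (n ^ (η / 5000)) ^ (2016 : ℕ) := by gcongr
    _ = Real.exp (Real.exp (10 ^ 9 / e)) * n ^ (M * e + η / 5000 * 2016 + η / 5000 * 2016) := by
        rw [Real.rpow_add hn0, Real.rpow_add hn0, Real.rpow_mul hn0.le (η / 5000) 2016]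
        norm_num
        ring
    _ ≤ Real.exp (Real.exp (10 ^ 9 / e)) * n ^ η := by
        refine mul_le_mul_of_nonneg_left ?_ (Real.exp_pos _).le
        refine Real.rpow_le_rpow_of_exponent_le hn ?_
        have h5 : M * e = η / 10 := by
          rw [he]
          field_simp
        rw [h5]
        linarith

/-- Decompositions of an arbitrary set. -/
theorem decompositions (M η : ℝ) (hM : 1 ≤ M) (hη : 0 < η) (hη1 : η ≤ 1) : ∃ C : ℝ, 0 < C ∧
    ∀ A : Finset ℤ, A.Nonempty →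
      (∃ B ⊆ A, (∀ P : Finset ℤ, P.Nonempty → (P.card : ℝ) ≤ (A.card : ℝ) ^ M →
          ((P + P).card : ℝ) ≤ (A.card : ℝ) ^ (η / 5000) * P.card →
          ((B ∩ P).card : ℝ) ≤ (A.card : ℝ) ^ (1 - η)) ∧
        ∀ X : Finset ℤ, X.Nonempty → (0 : ℤ) ∉ X →
          ((X * X).card : ℝ) ≤ (A.card : ℝ) ^ (η / 5000) * X.card →
          (((A \ B) ∩ X).card : ℝ) ≤ C * (A.card : ℝ) ^ (2 * η)) ∧
      ∃ B ⊆ A, (∀ X : Finset ℤ, X.Nonempty → (0 : ℤ) ∉ X →
          ((X * X).card : ℝ) ≤ (A.card : ℝ) ^ (η / 5000) * X.card →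
          ((B ∩ X).card : ℝ) ≤ (A.card : ℝ) ^ (1 - η)) ∧
        ∀ P : Finset ℤ, P.Nonempty → (P.card : ℝ) ≤ (A.card : ℝ) ^ M →
          ((P + P).card : ℝ) ≤ (A.card : ℝ) ^ (η / 5000) * P.card →
          (((A \ B) ∩ P).card : ℝ) ≤ C * (A.card : ℝ) ^ (2 * η) := by
  obtain ⟨C, hC, hC2⟩ := inter_bound M η hM hη hη1
  refine ⟨C, hC, ?_⟩
  intro A hA
  have cA : (0 : ℝ) < A.card := by exact_mod_cast hA.card_pos
  have cA1 : (1 : ℝ) ≤ A.card := by exact_mod_cast hA.card_pos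
  set n : ℝ := (A.card : ℝ) with hn
  have hT : 0 < n ^ (1 - η) := by positivity
  have fin : ∀ x : ℝ, x * n ^ (1 - η) ≤ n * (C * n ^ η) → x ≤ C * n ^ (2 * η) := by
    intro x hx
    have h1 : n * (C * n ^ η) = (C * n ^ (2 * η)) * n ^ (1 - η) := by
      have h2 : n ^ (2 * η) * n ^ (1 - η) = n * n ^ η := by
        rw [← Real.rpow_add cA]
        have h3 : 2 * η + (1 - η) = 1 + η := by ring
        rw [h3, Real.rpow_add cA, Real.rpow_one]
      rw [mul_assoc C, h2]
      ring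
    rw [h1] at hx
    exact le_of_mul_le_mul_right hx hT
  refine ⟨?_, ?_⟩
  · obtain ⟨B, hBA, h1, h2⟩ := decomp
      (fun P => P.Nonempty ∧ (P.card : ℝ) ≤ n ^ M ∧ ((P + P).card : ℝ) ≤ n ^ (η / 5000) * P.card)
      (fun X => X.Nonempty ∧ (0 : ℤ) ∉ X ∧ ((X * X).card : ℝ) ≤ n ^ (η / 5000) * X.card)
      A (n ^ (1 - η)) (C * n ^ η) hT (by positivity)
      (fun P X hP hX => hC2 n P X cA1 hP.1 hX.1 hX.2.1 hP.2.1 hP.2.2 hX.2.2)
    exact ⟨B, hBA, fun P a b c => h1 P ⟨a, b, c⟩, fun X a b c => fin _ (h2 X ⟨a, b, c⟩)⟩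
  · obtain ⟨B, hBA, h1, h2⟩ := decomp
      (fun X => X.Nonempty ∧ (0 : ℤ) ∉ X ∧ ((X * X).card : ℝ) ≤ n ^ (η / 5000) * X.card)
      (fun P => P.Nonempty ∧ (P.card : ℝ) ≤ n ^ M ∧ ((P + P).card : ℝ) ≤ n ^ (η / 5000) * P.card)
      A (n ^ (1 - η)) (C * n ^ η) hT (by positivity)
      (fun X P hX hP => by
        rw [Finset.inter_comm]
        exact hC2 n P X cA1 hP.1 hX.1 hX.2.1 hP.2.1 hP.2.2 hX.2.2)
    exact ⟨B, hBA, fun X a b c => h1 X ⟨a, b, c⟩, fun P a b c => fin _ (h2 P ⟨a, b, c⟩)⟩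

end Pool.Agent.H630.SP
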